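import Pool.Agent.Helper74.FN.St.Stubs

/-!
# FN-C3 (MP_12a1af): the union of all stages of a tower
-/

set_option autoImplicit false

namespace Pool.Agent.Helper50.FN

open Finset Filter
open Pool.Agent.Helper53.WR
open Pool.Agent.Helper48.FB (win crossF Cs Fs)
open Pool.Agent.Helper53.FM (BCov blockMax)
open Pool.Agent.Helper74.FN

lemma rep_le_repF {A : Set ℕ} {F : Finset ℕ} {n : ℕ} (h : ∀ x ∈ A, x ≤ n → x ∈ F) :
    rep A n ≤ repF F n := by
  unfold rep repF
  rw [← Set.ncard_coe_finset]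
  refine Set.ncard_le_ncard ?_ (Finset.finite_toSet _)
  rintro ⟨x, y⟩ ⟨h1, h2, h3⟩
  simp only at h1 h2 h3
  rw [mem_coe, mem_filter, mem_product]
  exact ⟨⟨h x h1 (by omega), h y h2 (by omega)⟩, h3⟩

lemma crossF_swap_card (X Y : Finset ℕ) (n : ℕ) : (crossF Y X n).card ≤ (crossF X Y n).card := by
  classical
  have : crossF Y X n ⊆ (crossF X Y n).image Prod.swap := by
    rintro ⟨x, y⟩ hxy
    unfold crossF at hxy
    rw [mem_filter, mem_product] at hxy
    rw [mem_image]
    refine ⟨(y, x), ?_, rfl⟩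
    unfold crossF
    rw [mem_filter, mem_product]
    exact ⟨⟨hxy.1.2, hxy.1.1⟩, by have := hxy.2; simp only at this ⊢; omega⟩
  exact (card_le_card this).trans card_image_le

/-- Representations by `O ∪ A`. -/
lemma repF_union_le (O A : Finset ℕ) (n : ℕ) :
    repF (O ∪ A) n ≤ repF O n + repF A n + 2 * (crossF A O n).card := by
  classical
  have hsub : ((O ∪ A) ×ˢ (O ∪ A)).filter (fun p => p.1 + p.2 = n) ⊆
      ((O ×ˢ O).filter (fun p => p.1 + p.2 = n) ∪ (A ×ˢ A).filter (fun p => p.1 + p.2 = n)) ∪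
        (crossF A O n ∪ crossF O A n) := by
    rintro ⟨x, y⟩ hp
    rw [mem_filter, mem_product] at hp
    obtain ⟨⟨hx, hy⟩, hxy⟩ := hp
    simp only [mem_union] at hx hy hxy
    simp only [crossF, mem_union, mem_filter, mem_product]
    tauto
  have h1 := card_le_card hsub
  have h2 := card_union_le ((O ×ˢ O).filter (fun p => p.1 + p.2 = n) ∪
    (A ×ˢ A).filter (fun p => p.1 + p.2 = n)) (crossF A O n ∪ crossF O A n)
  have h3 := card_union_le ((O ×ˢ O).filter (fun p => p.1 + p.2 = n))
    ((A ×ˢ A).filter (fun p => p.1 + p.2 = n))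
  have h4 := card_union_le (crossF A O n) (crossF O A n)
  have h6 := crossF_swap_card A O n
  unfold repF
  omega

/-- Representations by `O ∪ A` if no number is a sum of two elements of `O`. -/
lemma repF_union_le' {O A : Finset ℕ} {n : ℕ} (hno : ∀ x ∈ O, ∀ y ∈ O, x + y ≠ n) :
    repF (O ∪ A) n ≤ repF A n + 2 * (crossF A O n).card := by
  have h1 := repF_union_le O A n
  have h2 : repF O n = 0 := by
    unfold repF
    rw [card_eq_zero, filter_eq_empty_iff]
    rintro ⟨x, y⟩ hp hxy
    rw [mem_product] at hp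
    exact hno x hp.1 y hp.2 hxy
  omega

lemma repF_mono {A B : Finset ℕ} (h : A ⊆ B) (n : ℕ) : repF A n ≤ repF B n := by
  unfold repF
  exact card_le_card (filter_subset_filter _ (product_subset_product h h))

lemma crossF_mono {A B O : Finset ℕ} (h : A ⊆ B) (n : ℕ) :
    (crossF A O n).card ≤ (crossF B O n).card := by
  refine card_le_card ?_
  unfold crossF
  exact filter_subset_filter _ (product_subset_product h subset_rfl)

lemma tN_anti (a r : ℕ) {d d' : ℕ} (hr : 0 < r) (h : d ≤ d') : tN a r d' ≤ tN a r d := by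
  unfold tN
  have : 44 * a / (r + d') ≤ 44 * a / (r + d) := Nat.div_le_div_left (by omega) (by omega)
  omega

section tow

variable {a u b w r c : ℕ → ℕ}

lemma u_ge (h : NTow a u b w r c) (k : ℕ) : 60000 ≤ u k := by
  have := h.lu k
  omega

lemma u_mono (h : NTow a u b w r c) : Monotone u := monotone_nat_of_le_succ h.uu'

lemma a_mono (h : NTow a u b w r c) : Monotone a :=
  monotone_nat_of_le_succ (fun k => by rw [h.step k]; exact Nat.le_add_right _ _)

lemma sN_succ (h : NTow a u b w r c) (k : ℕ) : sN a u k + 4 * u k ≤ sN a u (k + 1) := by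
  have h1 := h.step k
  have h2 := h.uu' k
  have h3 := u_ge h k
  unfold sN
  omega

lemma sN_mono (h : NTow a u b w r c) : Monotone (sN a u) :=
  monotone_nat_of_le_succ (fun k => le_trans (Nat.le_add_right _ _) (sN_succ h k))

/-- the end of world `k` is below the start of world `k + 2` -/
lemma top_le (h : NTow a u b w r c) (k : ℕ) :
    4 * a (k + 1) + 8 * u (k + 1) + 1 ≤ sN a u (k + 2) := by
  have h1 := h.step (k + 1)
  have h2 := h.uu' (k + 1)
  have h3 := u_ge h (k + 1)
  show 4 * a (k + 1) + 8 * u (k + 1) + 1 ≤ 4 * a (k + 1 + 1) + 8 * u (k + 1 + 1) - 20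
  omega

/-- representations by one world -/
lemma num_le (h : NTow a u b w r c) (k d : ℕ) :
    4096 ^ 2 * 2592 * Fs u k + 2 * (4096 * (tN (a k) (r k) d * D0)) ≤ 2 ^ 63 * (a k / r k) := by
  have h1 := h.ua k
  have h2 := u_ge h k
  have hr := h.r1 k
  have h3 := h.uu k
  set X := a k / r k with hX
  have h4 : 2 ^ 42 * u k ≤ X := by
    rw [hX, Nat.le_div_iff_mul_le (by omega)]
    calc 2 ^ 42 * u k * r k = 2 ^ 42 * (u k * r k) := by ring
      _ ≤ a k := h1
  have h5 : 44 * a k / (r k + d) ≤ 44 * X + 44 := by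
    have e1 : 44 * a k / (r k + d) ≤ 44 * a k / r k := Nat.div_le_div_left (by omega) (by omega)
    have e2 : a k < r k * (X + 1) := by
      have := Nat.div_add_mod (a k) (r k)
      have h6 := Nat.mod_lt (a k) (show 0 < r k by omega)
      rw [← hX] at this
      have e3 : r k * (X + 1) = r k * X + r k := by ring
      omega
    have e4 : 44 * a k / r k < 44 * (X + 1) := by
      rw [Nat.div_lt_iff_lt_mul (by omega)]
      calc 44 * a k < 44 * (r k * (X + 1)) := Nat.mul_lt_mul_of_pos_left e2 (by norm_num)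
        _ = 44 * (X + 1) * r k := by ring
    omega
  have h6 : laT u k + 1 ≤ 14 * u k := by
    unfold laT
    omega
  have h7 : Fs u k ≤ 2 ^ 64 * (14 * u k) := by
    unfold Fs Cs
    exact Nat.mul_le_mul_left _ h6
  have h8 : tN (a k) (r k) d ≤ 44 * X + 45 := by
    unfold tN
    omega
  have h9 : tN (a k) (r k) d * D0 ≤ (44 * X + 45) * 2 ^ 16 := Nat.mul_le_mul h8 le_rfl
  have h10 : 4096 ^ 2 * 2592 * Fs u k ≤ 4096 ^ 2 * 2592 * (2 ^ 64 * (14 * u k)) :=
    Nat.mul_le_mul_left _ h7
  have e64 : (2 : ℕ) ^ 64 = 18446744073709551616 := by norm_num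
  have e63 : (2 : ℕ) ^ 63 = 9223372036854775808 := by norm_num
  have e42 : (2 : ℕ) ^ 42 = 4398046511104 := by norm_num
  have e16 : (2 : ℕ) ^ 16 = 65536 := by norm_num
  rw [e64] at h10
  rw [e42] at h4
  rw [e16] at h9
  rw [e63]
  omega

end tow

/-- FN-C3 (the union of all stages). -/
theorem ntower {a u b w r c : ℕ → ℕ} (h : NTow a u b w r c) (f g : ℕ → ℕ → ℕ)
    (T : ℕ → Finset ℕ) (T' B : ℕ → ℕ → Finset ℕ)
    (hT : ∀ k, NTop (laT u k) (Fs u k) (w k) (c k) (f k) (g k) (T k) (T' k) (B k)) :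
    ∃ A : Set ℕ, (0 ∈ A ∧ 1 ∈ A) ∧
      (∀ k n, 2 ≤ n → n < 2 ^ sN a u k →
        ∃ x ∈ A, ∃ y ∈ A, x + y = n ∧ n ≤ 2 * c k * x ∧ n ≤ 2 * c k * y) ∧
      (∀ n, n < 2 ^ sN a u 0 → rep A n ≤ Cs * a 0) ∧
      (∀ k n, 2 ^ sN a u k ≤ n → n < 2 ^ sN a u (k + 1) →
        rep A n ≤ Rb a r k + 2 ^ 63 * (a k / r k)) ∧
      (∀ k j G, sN a u k + 21 ≤ j → j + 1 ≤ sN a u (k + 1) →
        (∀ l, l ≤ 5 → g k (j - 4 * a k - l) ≤ G) → ∀ n, 2 ^ j ≤ n → n < 2 ^ (j + 1) →
          rep A n ≤ 4096 ^ 2 * 2592 * G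
            + 2 * (4096 * (tN (a k) (r k) (j - sN a u k) * D0))) ∧
      (∀ k J W, J ≤ sN a u (k + 1) → (∀ i, i ≤ k → w i ≤ W) →
        WinB (Pool.Agent.Helper48.WR.cut A J) (4 * a 0 + 8 * u 0 + 1) (2 ^ (W + 32))
          (2 ^ 17 * a k)) ∧
      ∀ ρ v : ℕ → ℕ, (∀ k, 21 ≤ v k) → ∃ A' : Set ℕ, A' ⊆ A ∧
        (∀ n, n < 2 ^ (sN a u 0 + 21) → rep A' n = 0) ∧
        (∀ k n, 2 ^ (sN a u k + 21) ≤ n → n < 2 ^ (sN a u (k + 1) + 21) →
          rep A' n ≤ 4096 ^ 2 * 2592 * f k (ρ k)
            + 2 * (4096 * (tN (a k) (r k) (v k) * D0))) ∧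
        ∀ k j, sN a u k + 9 + v k + Nat.log 2 (c k) ≤ j → j + 1 ≤ sN a u (k + 1) →
          (∀ l, l ≤ 5 → j - 4 * a k - l ∉ B k (ρ k)) → BCov A' (2 * c k) j := by
  classical
  obtain ⟨q, S, Ak, Ak', hq, hS1, hinv, hS0, hW⟩ :=
    Pool.Agent.Helper74.FN.St.ntower_pieces h f g T T' B hT
  have hmonoS : ∀ s s', s ≤ s' → S s ⊆ S s' := by
    intro s s' hs
    induction s' with
    | zero =>
      have : s = 0 := by omega
      rw [this]
    | succ s' ih =>
      rcases Nat.lt_or_eq_of_le hs with h1 | h1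
      · rw [hS1]
        exact (ih (by omega)).trans subset_union_left
      · rw [h1]
  -- elements of a late stage are old or belong to a world
  have hmemS : ∀ s s', s ≤ s' → ∀ x ∈ S s', x ∈ S s ∨ ∃ i, s ≤ i ∧ i < s' ∧ x ∈ Ak i := by
    intro s s' hs
    induction s' with
    | zero =>
      have : s = 0 := by omega
      rw [this]
      exact fun x hx => Or.inl hx
    | succ s' ih =>
      rcases Nat.lt_or_eq_of_le hs with h1 | h1
      · intro x hx
        rw [hS1, mem_union] at hx
        rcases hx with hx | hx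
        · rcases ih (by omega) x hx with h2 | ⟨i, h2, h3, h4⟩
          · exact Or.inl h2
          · exact Or.inr ⟨i, h2, by omega, h4⟩
        · exact Or.inr ⟨s', by omega, by omega, hx⟩
      · rw [h1]
        exact fun x hx => Or.inl hx
  have hlow : ∀ s i, s ≤ i → ∀ x ∈ Ak i, 2 ^ sN a u s ≤ x := by
    intro s i hs x hx
    exact le_trans (Nat.pow_le_pow_right (by norm_num) (sN_mono h hs)) ((hW i).rng x hx).1
  -- elements of a late stage are large
  have hlarge : ∀ s s', s ≤ s' → ∀ x ∈ S s', x ∈ S s ∨ 2 ^ sN a u s ≤ x := by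
    intro s s' hs x hx
    rcases hmemS s s' hs x hx with h1 | ⟨i, h1, _, h2⟩
    · exact Or.inl h1
    · exact Or.inr (hlow s i h1 x h2)
  let A : Set ℕ := {x | ∃ s, x ∈ S s}
  have hAlow : ∀ s, ∀ x ∈ A, x < 2 ^ sN a u s → x ∈ S s := by
    rintro s x ⟨s', hs'⟩ hx
    rcases le_total s s' with h1 | h1
    · rcases hlarge s s' h1 x hs' with h2 | h2
      · exact h2
      · omega
    · exact hmonoS s' s h1 hs'
  -- no sums of two old elements
  have hOO : ∀ s n, 2 ^ (sN a u s + 21) ≤ n → ∀ x ∈ S s, ∀ y ∈ S s, x + y ≠ n := by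
    intro s n hn x hx y hy hxy
    have h1 := (hinv s).bd x hx
    have h2 := (hinv s).bd y hy
    have h3 : sN a u s + 21 = 4 * a s + 8 * u s + 1 := by
      have := u_ge h s
      unfold sN
      omega
    rw [h3, pow_succ] at hn
    omega
  have hAkS : ∀ k, Ak k ⊆ S (k + 1) := by
    intro k
    rw [hS1]
    exact subset_union_right
  have hend : ∀ k, sN a u (k + 1) ≤ 4 * a k + laT u k := by
    intro k
    have h1 := h.step k
    have h2 := u_ge h k
    have h3 := u_ge h (k + 1)
    unfold sN laT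
    omega
  refine ⟨A, ?_, ?_, ?_, ?_, ?_, ?_, ?_⟩
  · exact ⟨⟨0, (hinv 0).zo.1⟩, ⟨0, (hinv 0).zo.2⟩⟩
  · intro k n hn2 hn
    have h1 : n < 2 ^ (4 * a k + 8 * u k - 8) := by
      refine lt_of_lt_of_le hn (Nat.pow_le_pow_right (by norm_num) ?_)
      unfold sN
      omega
    obtain ⟨x, hx, y, hy, hxy⟩ := (hinv k).cov n hn2 h1
    exact ⟨x, ⟨k, hx⟩, y, ⟨k, hy⟩, hxy⟩
  · intro n hn
    refine le_trans (rep_le_repF (F := S 0) ?_) (hS0 n)
    intro x hx hxn
    exact hAlow 0 x hx (by omega)
  · intro k n hn1 hn2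
    have h1 : rep A n ≤ repF (S k ∪ Ak k) n := by
      refine rep_le_repF ?_
      intro x hx hxn
      have h2 := hAlow (k + 1) x hx (by omega)
      rw [hS1] at h2
      exact h2
    have h2 := repF_union_le (S k) (Ak k) n
    have h3 := (hinv k).rep n hn1
    have h4 := (hW k).self n
    have h5 := (hW k).cross n
    have h6 := num_le h k (Nat.log 2 n - sN a u k)
    omega
  · intro k j G hj1 hj2 hG n hn1 hn2
    have hprof := (hW k).prof j G (by omega) (hj2.trans (hend k)) hG n hn1 hn2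
    have hn3 : (2 : ℕ) ^ (j + 1) ≤ 2 ^ sN a u (k + 1) := Nat.pow_le_pow_right (by norm_num) hj2
    have h1 : rep A n ≤ repF (S k ∪ Ak k) n := by
      refine rep_le_repF ?_
      intro x hx hxn
      have h2 := hAlow (k + 1) x hx (by omega)
      rw [hS1] at h2
      exact h2
    have h2 := repF_union_le' (O := S k) (A := Ak k) (n := n)
      (hOO k n (le_trans (Nat.pow_le_pow_right (by norm_num) hj1) hn1))
    have hlog : Nat.log 2 n = j := by
      rw [Nat.log_eq_iff (Or.inr ⟨by norm_num, by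
        have : 0 < 2 ^ j := by positivity
        omega⟩)]
      exact ⟨hn1, hn2⟩
    have h5 := (hW k).cross n
    rw [hlog] at h5
    omega
  · intro k J W hJ hwW y z hy hz
    set C := Pool.Agent.Helper48.WR.cut A J with hC
    -- elements of the window
    have hel : ∀ x ∈ win C y z, ∃ i ≤ k, x ∈ Ak i := by
      intro x hx
      unfold win at hx
      rw [mem_filter, hC, Pool.Agent.Helper48.WR.mem_cut] at hx
      obtain ⟨⟨hx1, hx2⟩, hx3, _⟩ := hx
      have h2 : (2 : ℕ) ^ J ≤ 2 ^ sN a u (k + 1) := Nat.pow_le_pow_right (by norm_num) hJ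
      have h3 := hAlow (k + 1) x hx2 (by omega)
      rcases hmemS 0 (k + 1) (by omega) x h3 with h4 | ⟨i, _, h5, h6⟩
      · exfalso
        have h5 := (hinv 0).bd x h4
        have h6 : (2 : ℕ) ^ (4 * a 0 + 8 * u 0) ≤ 2 ^ (4 * a 0 + 8 * u 0 + 1) :=
          Nat.pow_le_pow_right (by norm_num) (by omega)
        omega
      · exact ⟨i, by omega, h6⟩
    have hone : ∀ i ≤ k, (win (Ak i) y z).card * 2 ^ (Nat.log 2 y / 2) ≤
        2 ^ (W + 31) * z + 2 ^ 16 * a k * 2 ^ (Nat.log 2 y / 2) := by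
      intro i hi
      have h1 := (hW i).wn y z (le_trans (Nat.pow_le_pow_right (by norm_num) (Nat.zero_le _)) hy) hz
      refine h1.trans (Nat.add_le_add ?_ ?_)
      · exact Nat.mul_le_mul_right _ (Nat.pow_le_pow_right (by norm_num)
          (Nat.add_le_add_right (hwW i hi) _))
      · exact Nat.mul_le_mul_right _ (Nat.mul_le_mul_left _ (a_mono h hi))
    have hpow : 2 ^ (W + 32) * z = 2 * (2 ^ (W + 31) * z) := by
      rw [pow_succ (n := W + 31)]
      ring
    have hpow' : 2 ^ 17 * a k * 2 ^ (Nat.log 2 y / 2) =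
        2 * (2 ^ 16 * a k * 2 ^ (Nat.log 2 y / 2)) := by ring
    rw [hpow, hpow']
    rcases (win C y z).eq_empty_or_nonempty with he | hne
    · rw [he]
      simp
    · -- the first world which meets the window
      have hex : ∃ i, i ≤ k ∧ ∃ x ∈ win C y z, x ∈ Ak i := by
        obtain ⟨x, hx⟩ := hne
        obtain ⟨i, hi, hxi⟩ := hel x hx
        exact ⟨i, hi, x, hx, hxi⟩
      obtain ⟨hi0, x0, hx0, hxi0⟩ := Nat.find_spec hex
      set i0 := Nat.find hex with hi0def
      have hmin : ∀ i < i0, ¬ (i ≤ k ∧ ∃ x ∈ win C y z, x ∈ Ak i) := fun i hi =>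
        Nat.find_min hex hi
      have hx0y : y ≤ x0 := by
        unfold win at hx0
        exact (mem_filter.mp hx0).2.1
      have hx0t := ((hW i0).rng x0 hxi0).2
      have hall : ∀ x ∈ win C y z, x ∈ Ak i0 ∨ (i0 + 1 ≤ k ∧ x ∈ Ak (i0 + 1)) := by
        intro x hx
        obtain ⟨i, hi, hxi⟩ := hel x hx
        have h1 : i0 ≤ i := by
          by_contra hcon
          exact hmin i (by omega) ⟨hi, x, hx, hxi⟩
        have h2 : i < i0 + 2 := by
          by_contra hcon
          have h3 := hlow (i0 + 2) i (by omega) x hxi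
          have h4 : (2 : ℕ) ^ (4 * a (i0 + 1) + 8 * u (i0 + 1) + 1) ≤ 2 ^ sN a u (i0 + 2) :=
            Nat.pow_le_pow_right (by norm_num) (top_le h i0)
          rw [pow_succ] at h4
          have h5 : x < y + z := by
            unfold win at hx
            exact (mem_filter.mp hx).2.2
          omega
        rcases Nat.lt_or_eq_of_le h1 with h3 | h3
        · right
          have h4 : i = i0 + 1 := by omega
          rw [← h4]
          exact ⟨hi, hxi⟩
        · left
          rw [h3]
          exact hxi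
      have hsplit : ∀ x ∈ win C y z, ∀ i, x ∈ Ak i → x ∈ win (Ak i) y z := by
        intro x hx i hxi
        unfold win at hx ⊢
        rw [mem_filter] at hx ⊢
        exact ⟨hxi, hx.2⟩
      rcases Nat.lt_or_ge i0 k with hik | hik
      · have hsub : win C y z ⊆ win (Ak i0) y z ∪ win (Ak (i0 + 1)) y z := by
          intro x hx
          rw [mem_union]
          rcases hall x hx with h1 | ⟨_, h1⟩
          · exact Or.inl (hsplit x hx _ h1)
          · exact Or.inr (hsplit x hx _ h1)
        have h1 := (card_le_card hsub).trans (card_union_le _ _)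
        have h2 := hone i0 hi0
        have h3 := hone (i0 + 1) hik
        calc (win C y z).card * 2 ^ (Nat.log 2 y / 2)
            ≤ ((win (Ak i0) y z).card + (win (Ak (i0 + 1)) y z).card) *
                2 ^ (Nat.log 2 y / 2) := Nat.mul_le_mul_right _ h1
          _ = (win (Ak i0) y z).card * 2 ^ (Nat.log 2 y / 2) +
                (win (Ak (i0 + 1)) y z).card * 2 ^ (Nat.log 2 y / 2) := by ring
          _ ≤ _ := by omega
      · have hsub : win C y z ⊆ win (Ak i0) y z := by
          intro x hx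
          rcases hall x hx with h1 | ⟨h1, _⟩
          · exact hsplit x hx _ h1
          · omega
        have h1 := card_le_card hsub
        have h2 := hone i0 hi0
        calc (win C y z).card * 2 ^ (Nat.log 2 y / 2)
            ≤ (win (Ak i0) y z).card * 2 ^ (Nat.log 2 y / 2) := Nat.mul_le_mul_right _ h1
          _ ≤ _ := by omega
  · intro ρ v hv
    let P : ℕ → Finset ℕ := fun k =>
      (Ak' k (ρ k)).filter (fun x => 2 ^ (sN a u k + v k) ≤ x)
    let A' : Set ℕ := {x | ∃ k, x ∈ P k}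
    have hPA : ∀ k, P k ⊆ Ak k := fun k => (filter_subset _ _).trans ((hW k).sub (ρ k))
    have hP1 : ∀ k, ∀ x ∈ P k, 2 ^ (sN a u k + v k) ≤ x := by
      intro k x hx
      exact (mem_filter.mp hx).2
    have hlt : ∀ s k, s ≤ k → ∀ x ∈ P k, 2 ^ (sN a u s + 21) ≤ x := by
      intro s k hsk x hx
      refine le_trans (Nat.pow_le_pow_right (by norm_num) ?_) (hP1 k x hx)
      have h1 := sN_mono h hsk
      have h2 := hv k
      omega
    -- elements of `A'` below the next world
    have hA'mem : ∀ k, ∀ x ∈ A', x < 2 ^ (sN a u (k + 1) + 21) → x ∈ S k ∨ x ∈ P k := by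
      rintro k x ⟨s, hs⟩ hx
      rcases Nat.lt_trichotomy s k with h1 | h1 | h1
      · left
        exact hmonoS (s + 1) k h1 (hAkS s (hPA s hs))
      · right
        rw [← h1]
        exact hs
      · exfalso
        have h2 := hlt (k + 1) s h1 x hs
        omega
    refine ⟨A', ?_, ?_, ?_, ?_⟩
    · rintro x ⟨k, hk⟩
      exact ⟨k + 1, hAkS k (hPA k hk)⟩
    · intro n hn
      unfold rep
      have : ({p : ℕ × ℕ | p.1 ∈ A' ∧ p.2 ∈ A' ∧ p.1 + p.2 = n} : Set (ℕ × ℕ)) = ∅ := by
        rw [Set.eq_empty_iff_forall_notMem]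
        rintro ⟨x, y⟩ ⟨h1, h2, h3⟩
        simp only at h1 h3
        obtain ⟨s, hs⟩ := h1
        have h4 := hlt 0 s (Nat.zero_le _) x hs
        omega
      rw [this, Set.ncard_empty]
    · intro k n hn1 hn2
      have h1 : rep A' n ≤ repF (S k ∪ P k) n := by
        refine rep_le_repF ?_
        intro x hx hxn
        rw [mem_union]
        exact hA'mem k x hx (by omega)
      have h2 := repF_union_le' (O := S k) (A := P k) (n := n) (hOO k n hn1)
      have h6 : repF (P k) n ≤ 4096 ^ 2 * 2592 * f k (ρ k) :=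
        (repF_mono (filter_subset _ _) n).trans ((hW k).self' (ρ k) n)
      have h7 : (crossF (P k) (S k) n).card ≤ 4096 * (tN (a k) (r k) (v k) * D0) := by
        rcases (crossF (P k) (S k) n).eq_empty_or_nonempty with h8 | ⟨⟨x, y⟩, h8⟩
        · rw [h8]
          simp
        · have h9 : x ∈ P k ∧ x + y = n := by
            unfold crossF at h8
            rw [mem_filter, mem_product] at h8
            exact ⟨h8.1.1, h8.2⟩
          have h10 := hP1 k x h9.1
          have h11 : v k ≤ Nat.log 2 n - sN a u k := by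
            have : sN a u k + v k ≤ Nat.log 2 n := by
              refine Nat.le_log_of_pow_le (by norm_num) ?_
              omega
            omega
          refine (crossF_mono (hPA k) n).trans (((hW k).cross n).trans ?_)
          gcongr
          exact tN_anti _ _ (h.r1 k) h11
      omega
    · intro k j hj1 hj2 hB n hn1 hn2
      obtain ⟨x, hx, y, hy, hxy, h1, h2⟩ := (hW k).good (ρ k) j (by omega)
        (hj2.trans (hend k)) hB n hn1 hn2
      have hc : c k < 2 ^ (Nat.log 2 (c k) + 1) := Nat.lt_pow_succ_log_self (by norm_num) _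
      have hj3 : (2 : ℕ) ^ (sN a u k + v k) * 2 ^ (Nat.log 2 (c k) + 2) ≤ 2 ^ j := by
        rw [← pow_add]
        exact Nat.pow_le_pow_right (by norm_num) (by omega)
      have hbig : ∀ z, n ≤ 2 * c k * z → 2 ^ (sN a u k + v k) ≤ z := by
        intro z hz
        by_contra hcon
        push Not at hcon
        have h3 : 2 * c k * z ≤ 2 * c k * 2 ^ (sN a u k + v k) :=
          Nat.mul_le_mul_left _ hcon.le
        have hcp : 0 < 2 ^ (sN a u k + v k) := by positivity
        have h4 : 2 * c k * 2 ^ (sN a u k + v k) <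
            2 ^ (Nat.log 2 (c k) + 2) * 2 ^ (sN a u k + v k) := by
          apply Nat.mul_lt_mul_of_pos_right _ hcp
          rw [pow_succ (n := Nat.log 2 (c k) + 1)]
          omega
        have h5 : 2 ^ (Nat.log 2 (c k) + 2) * 2 ^ (sN a u k + v k) =
          2 ^ (sN a u k + v k) * 2 ^ (Nat.log 2 (c k) + 2) := mul_comm _ _
        omega
      exact ⟨x, ⟨k, mem_filter.mpr ⟨hx, hbig x h1⟩⟩, y, ⟨k, mem_filter.mpr ⟨hy, hbig y h2⟩⟩,
        hxy, h1, h2⟩

end Pool.Agent.Helper50.FN
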